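import Mathlib

namespace Pool.Agent.Results.MP_0168d2_co.Counter

variable {A : Type}

/-- `L` (the union of the sets `L_n`) is a factorial, extendable language containing the empty
word and every letter. -/
def IsLanguage (L : Set (List A)) : Prop :=
  [] ∈ L ∧ (∀ a, [a] ∈ L) ∧
  (∀ v ∈ L, v ≠ [] → (∃ a, ∃ u ∈ L, v = a :: u) ∧ (∃ b, ∃ u ∈ L, v = u ++ [b])) ∧
  (∀ v ∈ L, (∃ a, a :: v ∈ L) ∧ (∃ b, v ++ [b] ∈ L))

/-- `w` is a bispecial word of `L`. -/
def Bispecial (L : Set (List A)) (w : List A) : Prop :=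
  w ∈ L ∧ (∃ a a', a ≠ a' ∧ a :: w ∈ L ∧ a' :: w ∈ L) ∧
    (∃ b b', b ≠ b' ∧ w ++ [b] ∈ L ∧ w ++ [b'] ∈ L)

/-- The order condition for the pair `(ltA, ltD)`. -/
def OrderCondition (L : Set (List A)) (ltA ltD : A → A → Prop) : Prop :=
  ∀ v, Bispecial L v → ∀ x y x' y', x :: v ++ [y] ∈ L → x' :: v ++ [y'] ∈ L → x ≠ x' → y ≠ y' →
    (ltA x x' ↔ ltD y y')

/-- `a < a'` are consecutive for the order `lt`. -/
def Consec (lt : A → A → Prop) (a a' : A) : Prop := lt a a' ∧ ¬ ∃ c, lt a c ∧ lt c a'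

/-- No bispecial word of `L` has a connection. -/
def NoConnection (L : Set (List A)) (ltA ltD : A → A → Prop) : Prop :=
  ∀ w, Bispecial L w → ¬ ∃ a a' b b', Consec ltA a a' ∧ Consec ltD b b' ∧
    a :: w ++ [b] ∈ L ∧ a' :: w ++ [b'] ∈ L ∧ a :: w ++ [b'] ∉ L ∧ a' :: w ++ [b] ∉ L

/-- Palindromic complexity. -/
noncomputable def PC (L : Set (List A)) (n : ℕ) : ℕ :=
  {w | w ∈ L ∧ w.length = n ∧ w.reverse = w}.ncard

/-- Allowed transitions: `30, 31, 21, 11, 01, 02, 03`. -/
def R (x y : Fin 4) : Prop :=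
  (x = 3 ∧ y = 0) ∨ (x = 0 ∧ y = 2) ∨ (x = 0 ∧ y = 3) ∨ y = 1

instance : DecidableRel R := fun x y => by unfold R; infer_instance

def L0 : Set (List (Fin 4)) := {w | w.IsChain R}

lemma ones : ∀ (v : List (Fin 4)) (b : Fin 4), (1 :: v ++ [b]).IsChain R → b = 1
  | [], b, h => by
      have key : ∀ c : Fin 4, R 1 c → c = 1 := by decide
      exact key b (by simpa using h)
  | c :: v, b, h => by
      have h1 : R 1 c ∧ (c :: v ++ [b]).IsChain R := by simpa using h
      have key : ∀ c : Fin 4, R 1 c → c = 1 := by decide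
      have : c = 1 := key c h1.1
      subst this
      exact ones v b h1.2

lemma bisp (w : List (Fin 4)) (h : Bispecial L0 w) : w = [] := by
  rcases w with _ | ⟨c, v⟩
  · rfl
  exfalso
  obtain ⟨-, ⟨a, a', hne, h1, h2⟩, b, b', hne', h3, h4⟩ := h
  have r1 : R a c := (List.isChain_cons_cons.1 h1).1
  have r2 : R a' c := (List.isChain_cons_cons.1 h2).1
  have key : ∀ a a' c : Fin 4, a ≠ a' → R a c → R a' c → c = 1 := by decide
  have : c = 1 := key a a' c hne r1 r2
  subst this
  exact hne' ((ones v b h3).trans (ones v b' h4).symm)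

lemma mem2 (x y : Fin 4) : x :: [] ++ [y] ∈ L0 ↔ R x y := by simp [L0]

theorem result : ∃ (k : ℕ) (L : Set (List (Fin k))) (ltA ltD : Fin k → Fin k → Prop),
    1 ≤ k ∧ IsLanguage L ∧ IsStrictTotalOrder (Fin k) ltA ∧ IsStrictTotalOrder (Fin k) ltD ∧
    (∀ a b, ltD a b ↔ ltA b a) ∧ OrderCondition L ltA ltD ∧ NoConnection L ltA ltD ∧
    ∃ n, Odd n ∧ PC L n < k := by
  refine ⟨4, L0, (· > ·), (· < ·), by norm_num, ⟨?_, ?_, ?_, ?_⟩, ?_, inferInstance,
    fun a b => Iff.rfl, ?_, ?_, 3, by decide, ?_⟩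
  · simp [L0]
  · intro a; simp [L0]
  · intro v hv hne
    constructor
    · obtain ⟨a, u, rfl⟩ := List.exists_cons_of_ne_nil hne
      exact ⟨a, u, List.IsChain.tail hv, rfl⟩
    · refine ⟨v.getLast hne, v.dropLast, List.IsChain.dropLast hv, ?_⟩
      exact (List.dropLast_append_getLast hne).symm
  · intro v hv
    constructor
    · rcases v with _ | ⟨c, v⟩
      · exact ⟨0, by simp [L0]⟩
      · have : ∀ c : Fin 4, ∃ a, R a c := by decide
        obtain ⟨a, ha⟩ := this c
        exact ⟨a, List.isChain_cons_cons.2 ⟨ha, hv⟩⟩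
    · refine ⟨1, ?_⟩
      show (v ++ [1]).IsChain R
      rw [List.isChain_append]
      refine ⟨hv, by simp, ?_⟩
      intro x _ y hy
      have : y = 1 := by simpa using hy.symm
      subst this
      simp [R]
  · exact { trichotomous := fun a b h1 h2 => le_antisymm (not_lt.1 h1) (not_lt.1 h2)
            irrefl := fun a => lt_irrefl a
            trans := fun a b c h1 h2 => lt_trans h2 h1 }
  · intro v hv x y x' y'
    rw [bisp v hv, mem2, mem2]
    revert x y x' y'; decide
  · intro w hw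
    rw [bisp w hw]
    simp only [mem2, Consec]
    decide
  · have : {w | w ∈ L0 ∧ w.length = 3 ∧ w.reverse = w}
        ⊆ ↑({[0, 3, 0], [3, 0, 3], [1, 1, 1]} : Finset (List (Fin 4))) := by
      rintro w ⟨h1, h2, h3⟩
      obtain ⟨a, b, c, rfl⟩ := List.length_eq_three.1 h2
      have h4 : R a b ∧ R b c := by simpa [L0] using h1
      have h5 : c = a := by
        have := congrArg List.head? h3
        simpa using this
      subst h5
      have key : ∀ a b : Fin 4, R a b ∧ R b a →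
          [a, b, a] ∈ ({[0, 3, 0], [3, 0, 3], [1, 1, 1]} : Finset (List (Fin 4))) := by decide
      exact Finset.mem_coe.2 (key _ _ h4)
    have h := Set.ncard_le_ncard this (Finset.finite_toSet _)
    rw [Set.ncard_coe_finset] at h
    exact lt_of_le_of_lt (h.trans Finset.card_le_three) (by norm_num)

end Pool.Agent.Results.MP_0168d2_co.Counter
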